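import Pool.Agent.P8H30.MX.Stm2
import Pool.Agent.P8H40.HA.Sp

/-!
Project MX, package COO: independent coordinates on the block group.
-/

set_option autoImplicit false

namespace Pool.Agent.P8H29.MX

open Matrix MvPolynomial Pool.Agent.P8H30.MX

theorem eval_sum {S₁ S₂ : Type} (a : S₁ → ℂ) (b : S₂ → ℂ) (P : MvPolynomial (S₁ ⊕ S₂) ℂ) :
    eval (Sum.elim a b) P = eval a (MvPolynomial.map (eval b) (sumRingEquiv ℂ S₁ S₂ P)) := by
  induction P using MvPolynomial.induction_on with
  | C c => rw [sumRingEquiv_C, map_C, eval_C, eval_C, eval_C]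
  | add p q hp hq => rw [map_add, map_add, map_add, map_add, hp, hq]
  | mul_X p i hp =>
    rw [map_mul, map_mul, map_mul, map_mul, hp]
    congr 1
    rcases i with i | i
    · rw [sumRingEquiv_X_inl, map_X, eval_X, eval_X, Sum.elim_inl]
    · rw [sumRingEquiv_X_inr, map_C, eval_C, eval_X, eval_X, Sum.elim_inr]

theorem coo : S_COO := by
  intro s n J hJ hdet
  obtain ⟨T0, hT0⟩ := Pool.Agent.P8H40.HA.exists_coords J hJ hdet
  let e : Fin (n * (n + 1) / 2 + s * n) ≃ Fin (n * (n + 1) / 2) ⊕ (Fin s × Fin n) :=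
    finSumFinEquiv.symm.trans (Equiv.sumCongr (Equiv.refl _) finProdFinEquiv.symm)
  let F : Fin (n * (n + 1) / 2) ⊕ (Fin s × Fin n) → Fin (s + n) × Fin (s + n) :=
    Sum.elim (fun a => (Fin.natAdd s (T0 a).1, Fin.natAdd s (T0 a).2))
      (fun p => (Fin.castAdd n p.1, Fin.natAdd s p.2))
  refine ⟨fun i => F (e i), fun P hP => ?_⟩
  have hP' : rename e P ≠ 0 := fun h => hP (rename_injective e e.injective (by rw [h, map_zero]))
  set R := sumRingEquiv ℂ (Fin (n * (n + 1) / 2)) (Fin s × Fin n) (rename e P) with hR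
  have hR0 : R ≠ 0 := by
    intro h
    apply hP'
    have := (sumRingEquiv ℂ (Fin (n * (n + 1) / 2)) (Fin s × Fin n)).injective
    exact this (by rw [← hR, h, map_zero])
  obtain ⟨m, hm⟩ : ∃ m, R.coeff m ≠ 0 := by
    by_contra hcon
    push Not at hcon
    exact hR0 (MvPolynomial.ext _ _ fun s => by rw [hcon s, MvPolynomial.coeff_zero])
  obtain ⟨b, hb⟩ : ∃ b : Fin s × Fin n → ℂ, eval b (R.coeff m) ≠ 0 := by
    by_contra hcon
    push Not at hcon
    exact hm (MvPolynomial.funext fun a => by rw [hcon a, map_zero])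
  have hP1 : MvPolynomial.map (eval b) R ≠ 0 := by
    intro h
    apply hb
    rw [← MvPolynomial.coeff_map, h, MvPolynomial.coeff_zero]
  obtain ⟨g, hg, hgP⟩ := hT0 _ hP1
  refine ⟨Matrix.of fun i j => b (i, j), g, hg, ?_⟩
  have key : ∀ x, bl 1 (Matrix.of fun i j => b (i, j)) g (F x).1 (F x).2 =
      Sum.elim (fun a => g (T0 a).1 (T0 a).2) b x := by
    rintro (a | p)
    · exact bl_natAdd _ _ _ _ _
    · exact bl_right _ _ _ _ _
  rw [hR, ← eval_sum, eval_rename] at hgP
  have h1 : (fun i => bl 1 (Matrix.of fun i j => b (i, j)) g (F (e i)).1 (F (e i)).2) =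
      Sum.elim (fun a => g (T0 a).1 (T0 a).2) b ∘ e := funext fun i => key (e i)
  show eval (fun i => bl 1 (Matrix.of fun i j => b (i, j)) g (F (e i)).1 (F (e i)).2) P ≠ 0
  rw [h1]
  exact hgP

end Pool.Agent.P8H29.MX
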