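import Pool.Agent.P8H30.MX.Stm2
import Pool.Agent.P8H40.HA.Ind

/-!
Project MX, package IND: independent entries of the holomorphic part.
-/

set_option autoImplicit false

namespace Pool.Agent.P8H29.MX

open PowerSeries Matrix Pool.Agent.P8H30.MX
open Pool.Agent.Y119.HY (QD Am Jm cm E E_isom E_mul_neg Hf Hc Yf Gal)
open Pool.Agent.Y119.HZ (Hp Wp hf ix evq)

theorem qg_mul {s n : ℕ} {Q : Polynomial ℚ} (hQ : QD n Q) : QG (s + n) (Polynomial.X ^ s * Q) := by
  refine ⟨by have := hQ.two; omega, (Polynomial.monic_X_pow s).mul hQ.monic, ?_⟩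
  rw [(Polynomial.monic_X_pow s).natDegree_mul hQ.monic, Polynomial.natDegree_X_pow, hQ.deg]

theorem ind (hyp : S_HYP) (rel : S_REL) (hfb : S_HFB) (ebl : S_EBL) (coo : S_COO) : S_IND := by
  intro s n Q hQ
  obtain ⟨T, hT⟩ := coo s n (cm (Jm n Q)) (Pool.Agent.Y119.HY.Jc_skew hQ) (Pool.Agent.Y119.HY.Jc_det hQ)
  refine ⟨T, ?_⟩
  rw [algebraicIndependent_iff]
  intro R₀ hR₀
  by_contra hne
  obtain ⟨m, hm⟩ : ∃ m, R₀.coeff m ≠ 0 := by
    by_contra hcon
    push Not at hcon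
    exact hne (MvPolynomial.ext _ _ fun s => by rw [hcon s, MvPolynomial.coeff_zero])
  -- a point which is not a zero of the coefficient
  obtain ⟨x, hx0, hx1, hx⟩ : ∃ x : ℝ, 0 < x ∧ x < 1 ∧ evq (x : ℂ) (R₀.coeff m) ≠ 0 := by
    by_contra hcon
    push Not at hcon
    have h1 : ((R₀.coeff m).map (algebraMap ℚ ℂ)) = 0 := by
      refine Polynomial.eq_zero_of_infinite_isRoot _ ?_
      have h2 : Set.Infinite ((fun x : ℝ => (x : ℂ)) '' Set.Ioo (0 : ℝ) 1) :=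
        (Set.Ioo_infinite one_pos).image Complex.ofReal_injective.injOn
      refine h2.mono ?_
      rintro _ ⟨x, hx, rfl⟩
      show Polynomial.eval _ _ = 0
      rw [Polynomial.eval_map_algebraMap]
      exact hcon x hx.1 hx.2
    exact hm ((Polynomial.map_eq_zero (algebraMap ℚ ℂ)).1 h1)
  set P : MvPolynomial (Fin (n * (n + 1) / 2 + s * n)) ℂ := MvPolynomial.map (evq (x : ℂ)) R₀ with hP
  have hP0 : P ≠ 0 := by
    intro h
    apply hx
    rw [← MvPolynomial.coeff_map, ← hP, h, MvPolynomial.coeff_zero]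
  obtain ⟨b, g, hg, hgP⟩ := hT P hP0
  obtain ⟨b0, hb0⟩ := hfb s n Q (x : ℂ)
  obtain ⟨W, hW1, -, hW⟩ := Pool.Agent.Y119.HZ.isom_inv (Pool.Agent.Y119.HY.Jc_det hQ)
    (Pool.Agent.P8H40.HA.Hf_form hQ hx0 hx1)
  apply hgP
  have hmul : Hf (Hc (s + n) (Polynomial.X ^ s * Q)) (x : ℂ) * (bl 1 (-(b0 * W)) W * bl 1 b g) = bl 1 b g := by
    rw [hb0, ← Matrix.mul_assoc, bl_mul, hW1, Matrix.one_mul, Matrix.one_mul, neg_add_cancel, bl_one, Matrix.one_mul]
  have hN : cm (Am (s + n)) ^ (s + n) = 0 := Pool.Agent.Y119.HY.Ac_nil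
  have hNn : cm (Am n) ^ n = 0 := Pool.Agent.Y119.HY.Ac_nil
  have hgal : ∀ L : ℂ, E (cm (Am (s + n))) (-L) * (bl 1 (-(b0 * W)) W * bl 1 b g) * E (cm (Am (s + n))) L ∈
      Gal (Yf (cm (Am (s + n))) (Hc (s + n) (Polynomial.X ^ s * Q))) := by
    intro L
    obtain ⟨P1, R1, h1⟩ := ebl s n L
    obtain ⟨P2, R2, h2⟩ := ebl s n (-L)
    have h3 : P2 * P1 = 1 := by
      have h4 : E (cm (Am (s + n))) (-L) * E (cm (Am (s + n))) (- -L) = 1 := E_mul_neg hN _
      rw [neg_neg, h1, h2, bl_mul] at h4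
      ext i j
      have h5 := congrFun (congrFun h4 (Fin.castAdd n i)) (Fin.castAdd n j)
      rw [bl_castAdd] at h5
      rw [h5, Matrix.one_apply, Matrix.one_apply]
      simp only [Fin.castAdd_inj]
    rw [h1, h2, bl_mul, bl_mul, bl_mul, Matrix.one_mul, Matrix.mul_one, h3]
    refine hyp s n Q hQ _ _ ?_
    have hrel := Pool.Agent.Y119.HY.Jc_rel (n := n) (Q := Q)
    exact Pool.Agent.Y119.HZ.isom_mul (Pool.Agent.Y119.HZ.isom_mul (E_isom hNn hrel _)
      (Pool.Agent.Y119.HZ.isom_mul hW hg)) (E_isom hNn hrel _)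
  have h1 := rel (s + n) (Polynomial.X ^ s * Q) (qg_mul hQ)
    (MvPolynomial.rename (fun i => (ix (s + n)).symm (T i)) R₀) (by
    rw [MvPolynomial.aeval_rename, ← hR₀]
    congr 2
    funext i
    show hf (s + n) (Polynomial.X ^ s * Q) ((ix (s + n)).symm (T i)) = _
    unfold hf
    rw [Equiv.apply_symm_apply]) x hx0 hx1 _ hgal
  rw [MvPolynomial.eval₂_rename, hmul] at h1
  rw [hP, MvPolynomial.eval_map, ← h1]
  congr 1
  funext i
  simp only [Function.comp_apply, Equiv.apply_symm_apply]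

end Pool.Agent.P8H29.MX
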